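import Pool.Agent.H45.ARMain

set_option autoImplicit false

open Pool.Agent.H45.AR

namespace Pool.Agent.Results.MP_7faad7_pr.FiniteIndex

/-- A countable algebraically recurrent group with a finite-index subgroup that is not
algebraically recurrent. -/
theorem result : ∃ (G : Type) (_ : Group G) (_ : Countable G) (H : Subgroup G),
    H.FiniteIndex ∧ IsAR G ∧ ¬ IsAR H :=
  ⟨Dih, inferInstance, inferInstance, Dih.σ.ker, inferInstance, isAR_Dih, not_isAR_ker⟩

end Pool.Agent.Results.MP_7faad7_pr.FiniteIndex
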